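import Mathlib
import Pool.Agent.W_2411wi_h30.WeakDef

/-! The labelled strong immersion theorem. -/

set_option autoImplicit false

namespace Pool.Agent.W2411sw

open Pool.Agent.W2411c4 Pool.Agent.W2411wi

/-- The labelled strong immersion theorem for graphs of arbitrary degree: if `r` is a
well-quasi-order of the set `Ω` of labels and `H` is a graph, then the graphs in which `H` is not
strongly immersed, with vertices labelled by `Ω`, are well-quasi-ordered by strong immersions that do
not decrease labels. -/
def LabelledStrongWQO : Prop :=
  ∀ (Ω : Type) (r : Ω → Ω → Prop), IsWqo r → ∀ (H : MGraph) (G : ℕ → MGraph)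
    (φ : ∀ n, (G n).V → Ω), (∀ n, IsEmpty (StrongImmersion H (G n))) →
      ∃ i j, i < j ∧ ∃ I : StrongImmersion (G i) (G j), ∀ v, r (φ i v) (φ j (I.η v))

end Pool.Agent.W2411sw
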