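import Mathlib
import Pool.Agent.W_2411sw_h59.EqDef

/-! Strong immersion gives weak immersion; a graph of bounded degree does not strongly immerse two
vertices with many parallel edges; the unlabelled theorem from the labelled one. -/

set_option autoImplicit false

namespace Pool.Agent.W2411sw

open Pool.Agent.W2411c4 Pool.Agent.W2411wi

/-- two vertices joined by `n` parallel edges -/
def Dip (n : ℕ) : MGraph where
  V := Bool
  E := Fin n
  finV := inferInstance
  finE := inferInstance
  ends _ := s(false, true)
  loopless _ := by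
    rw [Sym2.mk_isDiag_iff]
    exact Bool.false_ne_true

/-- a walk between different vertices contains an edge at its first vertex -/
theorem walk_first {G : MGraph} : ∀ {u v : G.V} (p : Walk G u v), u ≠ v →
    ∃ e ∈ p.edges, u ∈ G.ends e
  | _, _, Walk.nil _, h => absurd rfl h
  | _, _, Walk.cons e h p, _ => ⟨e, by simp [Walk.edges], by rw [h]; exact Sym2.mem_mk_left _ _⟩

/-- a walk between different vertices contains an edge at its last vertex -/
theorem walk_last {G : MGraph} : ∀ {u v : G.V} (p : Walk G u v), u ≠ v →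
    ∃ e ∈ p.edges, v ∈ G.ends e
  | _, _, Walk.nil _, h => absurd rfl h
  | _, v, @Walk.cons _ u w _ e h p, _ => by
      by_cases hw : w = v
      · subst hw
        exact ⟨e, by simp [Walk.edges], by rw [h]; exact Sym2.mem_mk_right _ _⟩
      · obtain ⟨f, hf, hv⟩ := walk_last p hw
        exact ⟨f, by simp [Walk.edges, hf], hv⟩

theorem no_dip {D : ℕ} {G : MGraph} (hG : MaxDegreeLE D G) :
    IsEmpty (StrongImmersion (Dip (D + 1)) G) := by
  refine ⟨fun I => ?_⟩
  have := G.finE
  have hne : I.η false ≠ I.η true := fun h => Bool.false_ne_true (I.inj h)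
  have h1 : ∀ e : Fin (D + 1), ∃ f ∈ (I.path e).edges, I.η false ∈ G.ends f := by
    intro e
    have h2 : s(I.src e, I.dst e) = s(I.η false, I.η true) := I.ends_eq e
    rw [Sym2.eq_iff] at h2
    rcases h2 with ⟨h3, h4⟩ | ⟨h3, h4⟩
    · rw [← h3]
      exact walk_first _ (by rw [h3, h4]; exact hne)
    · rw [← h4]
      exact walk_last _ (by rw [h3, h4]; exact hne.symm)
  choose g hg1 hg2 using h1
  have hinj : Function.Injective g := by
    intro e f h
    by_contra hef
    exact I.disj e f hef (g e) (hg1 e) (h ▸ hg1 f)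
  have h2 := hG (I.η false)
  have h3 : (Set.range g).ncard = D + 1 := by
    rw [← Set.image_univ, Set.ncard_image_of_injective _ hinj, Set.ncard_univ, Nat.card_fin]
  have h4 : (Set.range g).ncard ≤ {e | I.η false ∈ G.ends e}.ncard := by
    apply Set.ncard_le_ncard _ (Set.toFinite _)
    rintro _ ⟨e, rfl⟩
    exact hg2 e
  omega

/-- forget the strong condition -/
def weaken {H G : MGraph} (I : StrongImmersion H G) : WeakImmersion H G where
  η := I.η
  inj := I.inj
  src := I.src
  dst := I.dst
  path := I.path
  ends_eq := I.ends_eq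
  isPath := I.isPath
  disj := I.disj

theorem weak_of_strong (h : LabelledStrongWQO) : LabelledWeakWQO := by
  intro Ω r hr D G φ hG
  obtain ⟨i, j, hij, I, hI⟩ := h Ω r hr (Dip (D + 1)) G φ fun n => no_dip (hG n)
  exact ⟨i, j, hij, weaken I, hI⟩

theorem all_of_strong (h : LabelledStrongWQO) (G : ℕ → MGraph) :
    ∃ i j, i < j ∧ Nonempty (StrongImmersion (G i) (G j)) := by
  by_contra hcon
  push Not at hcon
  obtain ⟨i, j, hij, I, _⟩ := h Unit (fun _ _ => True)
    ⟨fun _ => trivial, fun _ _ _ _ _ => trivial, fun _ => ⟨0, 1, Nat.zero_lt_one, trivial⟩⟩ (G 0)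
    (fun n => G (n + 1)) (fun _ _ => ()) fun n => hcon 0 (n + 1) (Nat.succ_pos n)
  exact (hcon (i + 1) (j + 1) (by omega)).false I

end Pool.Agent.W2411sw
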