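import Mathlib
import Pool.Agent.W_2411sw_h59.EqA
import Pool.Agent.W_2411ls_h59.Main

/-! The labelled strong immersion theorem, relative to thin closed graphs. -/

set_option autoImplicit false

namespace Pool.Agent.W2411sw

open Pool.Agent.W2411c4 Pool.Agent.W2411ls Pool.Agent.W2411wi

/-- `K(t)` in the coded graph, whatever the labels are, gives a strong immersion of a small graph -/
theorem si_of_hasK {Ω : Type} [Preorder Ω] [Inhabited Ω] {H G : MGraph} (φ : G.V → Ω) {t : ℕ}
    (ht : 2 ≤ t) (hX : (ofM H fun _ => ()).X.card ≤ t) (hE : (ofM H fun _ => ()).G.E.card ≤ t)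
    (h : HasK t (ofM G φ).G) : Nonempty (StrongImmersion H G) := by
  have h1 : HasK t (ofM G fun _ => ()).G := by
    obtain ⟨s, Ψ, h1, h2, h3⟩ := h
    exact ⟨s, Ψ, h1, h2, h3⟩
  have hlab : ∀ G : MGraph, ∀ x ∈ (ofM G fun _ => ()).X, ((ofM G fun _ => ()).G.lab x).v = 0 :=
    fun G x hx => Nat.lt_one_iff.1 (ofM_lab _ _ x hx)
  exact ⟨(si_of_cr (cr_of_hasK (P := ofM H fun _ => ()) (P' := ofM G fun _ => ()) (ofM_cls _ _)
    (ofM_cls _ _) (fun x hx y hy => ⟨(hlab H x hx).trans (hlab G y hy).symm, le_rfl⟩) ht hX hE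
    h1)).choose⟩

/-- a graph without vertices is strongly immersed in every graph -/
theorem si_empty {H G : MGraph} (h : H.V → False) : Nonempty (StrongImmersion H G) := by
  have hE : ∀ e : H.E, False := by
    intro e
    induction H.ends e with
    | _ u v => exact h u
  exact ⟨{
    η := fun v => (h v).elim
    inj := fun v => (h v).elim
    src := fun e => (hE e).elim
    dst := fun e => (hE e).elim
    path := fun e => (hE e).elim
    ends_eq := fun e => (hE e).elim
    isPath := fun e => (hE e).elim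
    disj := fun e => (hE e).elim
    strong := fun e => (hE e).elim }⟩

theorem strong_of_thin (hT : ∀ (Ω : Type) [Preorder Ω] [Inhabited Ω] [WellQuasiOrderedLE Ω],
    ThinOK Ω ⊤) : LabelledStrongWQO := by
  intro Ω r hr H G φ hG
  by_cases hΩ : Nonempty Ω
  · let _ : Preorder Ω := { le := r, le_refl := hr.1, le_trans := hr.2.1 }
    let _ : Inhabited Ω := ⟨hΩ.some⟩
    have : WellQuasiOrderedLE Ω := ⟨hr.2.2⟩
    let t : ℕ := (ofM H fun _ => ()).X.card + (ofM H fun _ => ()).G.E.card + 2
    exact main_lab (hT Ω) t G φ (fun _ => twi_top _ _) fun n h =>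
      (hG n).false (si_of_hasK (φ n) (by omega) (by omega) (by omega) h).some
  · have hV : (G 0).V → False := fun v => hΩ ⟨φ 0 v⟩
    exact ⟨0, 1, Nat.zero_lt_one, (si_empty hV).some, fun v => (hV v).elim⟩

end Pool.Agent.W2411sw
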