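import Mathlib
import Pool.Agent.W_2411sw_h59.EqB
import Pool.Agent.W_2411wl_h30.ThinW

/-! The equivalence of the labelled weak immersion theorem (bounded degree) and the labelled strong
immersion theorem. -/

set_option autoImplicit false

open Set

namespace Pool.Agent.W2411sw

open Pool.Agent.W2411c4 Pool.Agent.W2411ls Pool.Agent.W2411wi

theorem thinOK_top (hL : LabelledWeakWQO) (Ω : Type) [Preorder Ω] [Inhabited Ω]
    [WellQuasiOrderedLE Ω] : ThinOK Ω ⊤ := by
  intro j W hW M
  refine (W2411wi.thin_pwo hL hW M).mono ?_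
  rintro P ⟨hc, pt, up, rk, hp⟩
  exact ⟨hc, pt, fun x hx => hp.atom x hx (Finset.notMem_empty _)⟩

/-- **Equivalence.** -/
theorem weak_iff_strong : LabelledWeakWQO ↔ LabelledStrongWQO :=
  ⟨fun h => strong_of_thin fun Ω _ _ _ => thinOK_top h Ω, weak_of_strong⟩

end Pool.Agent.W2411sw
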